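import Pool.Agent.H49.Err6
import Pool.Agent.Lead.Sel.All

open Pool.Agent.H49.Err

theorem Pool.Agent.Results.MP_2a1a00_nt.NoSaving.result :
    (∃ (c : ℕ → ℂ) (L : ℂ → ℂ) (d₀ : ℝ), SelDeg c L d₀ ∧ MeanSq L) ∧
    ∀ (c : ℕ → ℂ) (L : ℂ → ℂ) (d₀ : ℝ), SelDeg c L d₀ → MeanSq L →
    ∃ (k : ℕ) (d l : Fin k → ℕ) (a : Fin k → ℕ → ℂ) (F : Fin k → ℂ → ℂ), 2 ≤ k ∧ StrictMono d ∧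
      (∀ j, 2 ≤ d j) ∧ (∀ j, SelDeg (a j) (F j) (d j)) ∧ (∀ j, 1 ≤ l j) ∧ (∃ j, l j = 1) ∧
      ¬ ∃ δ : ℝ, 0 < δ ∧ ∀ ε : ℝ, 0 < ε → ∃ C T₀ : ℝ, ∀ T : ℝ, T₀ ≤ T →
        ‖∫ x in (1 : ℝ)..T, (∏ j, err (a j) (F j) x ^ l j) *
            ((‖L (1 / 2 + x * Complex.I)‖ ^ 2 : ℝ) : ℂ)‖ ≤
          C * T ^ (1 + ∑ j, (l j : ℝ) * ((d j : ℝ) - 1) / (2 * d j) - δ + ε) :=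
  twisted Pool.Agent.Lead.Sel.hohAll Pool.Agent.Lead.Sel.ker0 Pool.Agent.Lead.Sel.mel
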